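import Mathlib

/-!
Circular orders of {1, …, n} as periodic functions, insertion of a new element.
-/

namespace Pool.Agent.H47.CP

/-- `f` (of period `n`) lists `1, …, n` in a circular order in which neighbours are related by `R` -/
structure Cyc (R : ℕ → ℕ → Prop) (n : ℕ) (f : ℕ → ℕ) : Prop where
  per : ∀ i, f (i + n) = f i
  pos : ∀ i, 1 ≤ f i
  le : ∀ i, f i ≤ n
  inj : ∀ i j, i < n → j < n → f i = f j → i = j
  rel : ∀ i, R (f i) (f (i + 1))

variable {R : ℕ → ℕ → Prop} {n : ℕ} {f : ℕ → ℕ}

lemma Cyc.per_mod (h : Cyc R n f) (i : ℕ) : f (i % n) = f i := by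
  have key : ∀ q r, f (r + n * q) = f r := by
    intro q
    induction q with
    | zero => intro r; simp
    | succ q ih =>
      intro r
      rw [Nat.mul_succ, ← add_assoc, h.per, ih]
  conv_rhs => rw [← Nat.mod_add_div i n]
  rw [key]

lemma Cyc.inj_window (h : Cyc R n f) (hn : 0 < n) (c i j : ℕ) (hi : i < n) (hj : j < n)
    (he : f (c + i) = f (c + j)) : i = j := by
  rw [← h.per_mod (c + i), ← h.per_mod (c + j)] at he
  have h1 := h.inj _ _ (Nat.mod_lt _ hn) (Nat.mod_lt _ hn) he
  have h2 : c + i ≡ c + j [MOD n] := h1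
  have h3 : i ≡ j [MOD n] := Nat.ModEq.add_left_cancel' c h2
  have h4 : i % n = j % n := h3
  rwa [Nat.mod_eq_of_lt hi, Nat.mod_eq_of_lt hj] at h4

/-- insertion of `n + 1` between the places `c` and `c + 1` -/
lemma Cyc.insert (h : Cyc R n f) (hn : 0 < n) (c : ℕ) (h1 : R (f c) (n + 1))
    (h2 : R (n + 1) (f (c + 1))) :
    Cyc R (n + 1) (fun i => if i % (n + 1) = 0 then n + 1 else f (c + i % (n + 1))) where
  per := by intro i; simp
  pos := by
    intro i
    split_ifs
    · omega
    · exact h.pos _
  le := by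
    intro i
    split_ifs
    · omega
    · exact (h.le _).trans (Nat.le_succ n)
  inj := by
    intro i j hi hj
    rw [Nat.mod_eq_of_lt hi, Nat.mod_eq_of_lt hj]
    intro he
    split_ifs at he with h3 h4 h4
    · omega
    · have := h.le (c + j); omega
    · have := h.le (c + i); omega
    · obtain ⟨i', rfl⟩ : ∃ i', i = i' + 1 := ⟨i - 1, by omega⟩
      obtain ⟨j', rfl⟩ : ∃ j', j = j' + 1 := ⟨j - 1, by omega⟩
      have := h.inj_window hn (c + 1) i' j' (by omega) (by omega)
        (by rw [show c + 1 + i' = c + (i' + 1) by ring, show c + 1 + j' = c + (j' + 1) by ring]; exact he)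
      omega
  rel := by
    intro i
    have hlt := Nat.mod_lt i (Nat.succ_pos n)
    rcases Nat.lt_or_ge (i % (n + 1)) n with hr | hr
    · have hs : (i + 1) % (n + 1) = i % (n + 1) + 1 := by
        rw [Nat.add_mod, Nat.mod_eq_of_lt (a := 1) (by omega), Nat.mod_eq_of_lt (by omega)]
      rw [hs]
      rw [if_neg (by omega : ¬ (i % (n + 1) + 1 = 0))]
      split_ifs with h0
      · rw [h0]; exact h2
      · have := h.rel (c + i % (n + 1))
        rwa [add_assoc] at this
    · have hr' : i % (n + 1) = n := by simp only [Nat.succ_eq_add_one] at hlt; omega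
      have hs : (i + 1) % (n + 1) = 0 := by
        rw [Nat.add_mod, hr', Nat.mod_eq_of_lt (a := 1) (by omega), Nat.mod_self]
      rw [hs, hr', if_pos rfl, if_neg (by omega : ¬ (n = 0)), h.per]
      exact h1

/-- two neighbours in a set which contains more than half of the elements -/
lemma Cyc.exists_nb (h : Cyc R n f) (hn : 0 < n) (G : Finset ℕ) (hG : ∀ x ∈ G, 1 ≤ x ∧ x ≤ n)
    (hc : n < 2 * G.card) : ∃ c, f c ∈ G ∧ f (c + 1) ∈ G := by
  by_contra hno
  push Not at hno
  -- places of elements of `G`
  set I : Finset ℕ := (Finset.range n).filter (fun i => f i ∈ G) with hI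
  have himg : Finset.image f (Finset.range n) = Finset.Icc 1 n := by
    apply Finset.eq_of_subset_of_card_le
    · intro x hx
      obtain ⟨i, _, rfl⟩ := Finset.mem_image.1 hx
      exact Finset.mem_Icc.2 ⟨h.pos i, h.le i⟩
    · rw [Finset.card_image_of_injOn, Finset.card_range, Nat.card_Icc]
      · omega
      · intro i hi j hj he
        exact h.inj i j (by simpa using hi) (by simpa using hj) he
  have hGI : G ⊆ Finset.image f I := by
    intro x hx
    have : x ∈ Finset.image f (Finset.range n) := by
      rw [himg]; exact Finset.mem_Icc.2 (hG x hx)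
    obtain ⟨i, hi, rfl⟩ := Finset.mem_image.1 this
    exact Finset.mem_image.2 ⟨i, Finset.mem_filter.2 ⟨hi, hx⟩, rfl⟩
  have hGc : G.card ≤ I.card := (Finset.card_le_card hGI).trans Finset.card_image_le
  set J : Finset ℕ := I.image (fun i => (i + 1) % n) with hJ
  have hJc : J.card = I.card := by
    apply Finset.card_image_of_injOn
    intro i hi j hj he
    have hi' : i < n := by
      have := (Finset.mem_filter.1 (Finset.mem_coe.1 hi)).1; simpa using this
    have hj' : j < n := by
      have := (Finset.mem_filter.1 (Finset.mem_coe.1 hj)).1; simpa using this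
    have h3 : i + 1 ≡ j + 1 [MOD n] := he
    have h4 : i ≡ j [MOD n] := Nat.ModEq.add_right_cancel' 1 h3
    have h5 : i % n = j % n := h4
    rwa [Nat.mod_eq_of_lt hi', Nat.mod_eq_of_lt hj'] at h5
  have hdis : Disjoint I J := by
    rw [Finset.disjoint_left]
    intro x hx hxJ
    obtain ⟨i, hi, rfl⟩ := Finset.mem_image.1 hxJ
    have h1 := (Finset.mem_filter.1 hi).2
    have h2 := (Finset.mem_filter.1 hx).2
    rw [h.per_mod] at h2
    exact hno i h1 h2
  have hsub : I ∪ J ⊆ Finset.range n := by
    intro x hx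
    rcases Finset.mem_union.1 hx with hx | hx
    · exact (Finset.mem_filter.1 hx).1
    · obtain ⟨i, _, rfl⟩ := Finset.mem_image.1 hx
      exact Finset.mem_range.2 (Nat.mod_lt _ hn)
  have := Finset.card_le_card hsub
  rw [Finset.card_union_of_disjoint hdis, hJc, Finset.card_range] at this
  omega

/-- a circular order gives a permutation of `Fin n` -/
lemma Cyc.perm (h : Cyc R n f) : ∃ π : Equiv.Perm (Fin n), ∀ i : Fin n,
    (π i).1 + 1 = f i.1 ∧ (π (finRotate n i)).1 + 1 = f (i.1 + 1) := by
  have hb : Function.Bijective (fun i : Fin n => (⟨f i.1 - 1, by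
      have := h.pos i.1; have := h.le i.1; omega⟩ : Fin n)) := by
    rw [← Finite.injective_iff_bijective]
    intro i j he
    have he' : f i.1 - 1 = f j.1 - 1 := by simpa using he
    have h1 := h.pos i.1
    have h2 := h.pos j.1
    exact Fin.ext (h.inj _ _ i.2 j.2 (by omega))
  refine ⟨Equiv.ofBijective _ hb, fun i => ?_⟩
  have hv : ∀ j : Fin n, ((Equiv.ofBijective _ hb) j).1 + 1 = f j.1 := by
    intro j
    have h1 := h.pos j.1
    show f j.1 - 1 + 1 = _
    omega
  refine ⟨hv i, ?_⟩
  rw [hv]
  have hj : (finRotate n i).1 = (i.1 + 1) % n := by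
    have hn : 0 < n := i.pos
    obtain ⟨m, rfl⟩ : ∃ m, n = m + 1 := ⟨n - 1, by omega⟩
    rw [finRotate_apply, Fin.val_add, Fin.val_one']
    simp
  rw [hj, h.per_mod]

end Pool.Agent.H47.CP
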