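import Mathlib

/-!
The number of integers below `Y` which are coprime to 30030.
-/

namespace Pool.Agent.H47.CP

/-- the check: `c` is the number of admissible integers below `j`; result: number below `j + f` -/
def chk : ℕ → ℕ → ℕ → Option ℕ
  | 0, _, c => some c
  | f + 1, j, c =>
    if Nat.gcd 30030 j = 1 then
      (if 1001 * (c + 1) ≤ 192 * (j + 1) + 3600 then chk f (j + 1) (c + 1) else none)
    else
      (if 1001 * c ≤ 192 * (j + 1) + 3600 then chk f (j + 1) c else none)

lemma chk_spec (f : ℕ) : ∀ j c r, c = Nat.count (fun x => Nat.Coprime 30030 x) j →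
    chk f j c = some r →
    (∀ i, 1 ≤ i → i ≤ f → 1001 * Nat.count (fun x => Nat.Coprime 30030 x) (j + i) ≤ 192 * (j + i) + 3600) ∧
      r = Nat.count (fun x => Nat.Coprime 30030 x) (j + f) := by
  induction f with
  | zero =>
    intro j c r hc h
    simp only [chk, Option.some.injEq] at h
    exact ⟨fun i h1 h2 => by omega, by rw [← h, hc]; rfl⟩
  | succ f ih =>
    intro j c r hc h
    rw [chk] at h
    split_ifs at h with h1 h2 h2
    · have hc' : c + 1 = Nat.count (fun x => Nat.Coprime 30030 x) (j + 1) := by
        rw [Nat.count_succ, if_pos h1, hc]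
      obtain ⟨ha, hb⟩ := ih (j + 1) (c + 1) r hc' h
      refine ⟨fun i hi hi' => ?_, by rw [hb]; congr 1; omega⟩
      rcases Nat.lt_or_ge 1 i with h3 | h3
      · have := ha (i - 1) (by omega) (by omega)
        rwa [show j + 1 + (i - 1) = j + i by omega] at this
      · have : i = 1 := by omega
        subst this
        rw [← hc']; exact h2
    · have hc' : c = Nat.count (fun x => Nat.Coprime 30030 x) (j + 1) := by
        rw [Nat.count_succ, if_neg h1, hc]; rfl
      obtain ⟨ha, hb⟩ := ih (j + 1) c r hc' h
      refine ⟨fun i hi hi' => ?_, by rw [hb]; congr 1; omega⟩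
      rcases Nat.lt_or_ge 1 i with h3 | h3
      · have := ha (i - 1) (by omega) (by omega)
        rwa [show j + 1 + (i - 1) = j + i by omega] at this
      · have : i = 1 := by omega
        subst this
        rw [← hc']; exact h2

lemma chk_all : chk 30030 0 0 = some 5760 := by decide +kernel

lemma chk_spec0 (f r : ℕ) (h : chk f 0 0 = some r) :
    (∀ i, 1 ≤ i → i ≤ f → 1001 * Nat.count (fun x => Nat.Coprime 30030 x) i ≤ 192 * i + 3600) ∧
      r = Nat.count (fun x => Nat.Coprime 30030 x) f := by
  have := chk_spec f 0 0 r (by simp) h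
  simpa only [Nat.zero_add] using this

lemma bound_aux (m t : ℕ) (hm : 0 < m) (hmt : m = 30030)
    (ha : ∀ i, 1 ≤ i → i ≤ m → 1001 * Nat.count (fun x => Nat.Coprime 30030 x) i ≤ 192 * i + 3600)
    (hb : t = Nat.count (fun x => Nat.Coprime 30030 x) m) (ht : 1001 * t ≤ 192 * m) (Y : ℕ) :
    1001 * Nat.count (fun x => Nat.Coprime 30030 x) Y ≤ 192 * Y + 3600 := by
  induction Y using Nat.strong_induction_on with
  | _ Y ih =>
    rcases Nat.lt_or_ge m Y with h | h
    · have h1 := ih (Y - m) (by omega)
      have h2 : Nat.count (fun x => Nat.Coprime 30030 x) Y =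
          t + Nat.count (fun x => Nat.Coprime 30030 x) (Y - m) := by
        have h3 : Y = m + (Y - m) := by omega
        have h4 := Nat.count_add (fun x => Nat.Coprime 30030 x) m (Y - m)
        rw [← h3, ← hb] at h4
        rw [h4]
        congr 1
        congr 1
        funext x
        rw [← hmt]
        simp only [Nat.coprime_self_add_right]
      omega
    · rcases Nat.eq_zero_or_pos Y with rfl | hp
      · simp
      · exact ha Y hp h

lemma count_bound (Y : ℕ) : 1001 * Nat.count (fun x => Nat.Coprime 30030 x) Y ≤ 192 * Y + 3600 :=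
  have h := chk_spec0 _ _ chk_all
  bound_aux 30030 5760 (by norm_num) rfl h.1 h.2 (by norm_num) Y

end Pool.Agent.H47.CP
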