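import Mathlib
import Pool.Agent.H47.CP.Cnt

/-!
More than half of the `k < N` have `2kN+1` squarefree, for `N ≥ 6`.
-/

namespace Pool.Agent.H47.CP

open Finset

lemma card_class (N m n : ℕ) (hm : 0 < m) :
    ((Finset.Icc 1 n).filter (fun k => m ∣ 2 * k * N + 1)).card ≤ (n - 1) / m + 1 := by
  rw [← Finset.card_range ((n - 1) / m + 1)]
  apply Finset.card_le_card_of_injOn (fun k => (k - 1) / m)
  · intro k hk
    have h1 := (Finset.mem_filter.1 (Finset.mem_coe.1 hk)).1
    rw [Finset.mem_Icc] at h1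
    simp only [Finset.coe_range, Set.mem_Iio]
    exact Nat.lt_succ_of_le (Nat.div_le_div_right (by omega))
  · intro k hk k' hk' he
    obtain ⟨h1, h2⟩ := Finset.mem_filter.1 (Finset.mem_coe.1 hk)
    obtain ⟨h1', h2'⟩ := Finset.mem_filter.1 (Finset.mem_coe.1 hk')
    rw [Finset.mem_Icc] at h1 h1'
    have hcop : Nat.gcd m (2 * N) = 1 := by
      have h3 : Nat.Coprime (2 * N * k + 1) (2 * N) := by
        rw [Nat.coprime_comm]; simp
      apply Nat.Coprime.coprime_dvd_left _ h3
      rwa [show 2 * N * k = 2 * k * N by ring]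
    have h4 : 2 * k * N + 1 ≡ 2 * k' * N + 1 [MOD m] :=
      ((Nat.modEq_zero_iff_dvd).2 h2).trans ((Nat.modEq_zero_iff_dvd).2 h2').symm
    have h5 : 2 * k * N ≡ 2 * k' * N [MOD m] := Nat.ModEq.add_right_cancel' 1 h4
    have h6 : (2 * N) * k ≡ (2 * N) * k' [MOD m] := by
      rwa [show 2 * N * k = 2 * k * N by ring, show 2 * N * k' = 2 * k' * N by ring]
    have h7 : k ≡ k' [MOD m] := Nat.ModEq.cancel_left_of_coprime hcop h6
    have h8 : (k - 1) + 1 ≡ (k' - 1) + 1 [MOD m] := by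
      rwa [Nat.sub_add_cancel h1.1, Nat.sub_add_cancel h1'.1]
    have h9 : (k - 1) % m = (k' - 1) % m := Nat.ModEq.add_right_cancel' 1 h8
    have h10 := Nat.mod_add_div (k - 1) m
    have h11 := Nat.mod_add_div (k' - 1) m
    simp only at he
    rw [h9, he, h11] at h10
    omega

/-- the primes which matter -/
def PP (N : ℕ) : Finset ℕ :=
  (Finset.range (2 * N)).filter (fun p => p.Prime ∧ 3 ≤ p ∧ p * p < 2 * N * N)

lemma bad_le (N : ℕ) (hN : 2 ≤ N) :
    ((Finset.Icc 1 (N - 1)).filter (fun k => ¬ Squarefree (2 * k * N + 1))).card ≤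
      ∑ p ∈ PP N, ((N - 2) / (p * p) + 1) := by
  have hsub : (Finset.Icc 1 (N - 1)).filter (fun k => ¬ Squarefree (2 * k * N + 1)) ⊆
      (PP N).biUnion (fun p => (Finset.Icc 1 (N - 1)).filter (fun k => p * p ∣ 2 * k * N + 1)) := by
    intro k hk
    obtain ⟨h1, h2⟩ := Finset.mem_filter.1 hk
    rw [Nat.squarefree_iff_prime_squarefree] at h2
    push Not at h2
    obtain ⟨p, hp, hd⟩ := h2
    rw [Finset.mem_biUnion]
    refine ⟨p, ?_, Finset.mem_filter.2 ⟨h1, hd⟩⟩
    rw [Finset.mem_Icc] at h1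
    have hle := Nat.le_of_dvd (Nat.succ_pos _) hd
    have hlt : p * p < 2 * N * N := by
      obtain ⟨M, rfl⟩ : ∃ M, N = M + 1 := ⟨N - 1, by omega⟩
      have : 2 * k * (M + 1) ≤ 2 * M * (M + 1) := by
        apply Nat.mul_le_mul_right; omega
      nlinarith
    have h3 : 3 ≤ p := by
      by_contra h
      have h2' := hp.two_le
      have hp2 : p = 2 := by omega
      subst hp2
      obtain ⟨c, hc⟩ := hd
      have : 2 * (k * N) + 1 = 2 * (2 * c) := by rw [← mul_assoc, hc]; ring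
      omega
    refine Finset.mem_filter.2 ⟨Finset.mem_range.2 ?_, hp, h3, hlt⟩
    by_contra h
    push Not at h
    have := Nat.mul_le_mul h h
    nlinarith
  refine (Finset.card_le_card hsub).trans (Finset.card_biUnion_le.trans ?_)
  apply Finset.sum_le_sum
  intro p hp
  have hpp := (Finset.mem_filter.1 hp).2.1.pos
  have := card_class N (p * p) (N - 1) (Nat.mul_pos hpp hpp)
  rwa [show N - 1 - 1 = N - 2 by omega] at this

/-- the odd primes below 1003 -/
def Lp : List ℕ := [3, 5, 7, 11, 13, 17, 19, 23, 29, 31, 37, 41, 43, 47, 53, 59, 61, 67, 71, 73, 79, 83, 89, 97, 101, 103, 107, 109, 113, 127, 131, 137, 139, 149, 151, 157, 163, 167, 173, 179, 181, 191, 193, 197, 199, 211, 223, 227, 229, 233, 239, 241, 251, 257, 263, 269, 271, 277, 281, 283, 293, 307, 311, 313, 317, 331, 337, 347, 349, 353, 359, 367, 373, 379, 383, 389, 397, 401, 409, 419, 421, 431, 433, 439, 443, 449, 457, 461, 463, 467, 479, 487, 491, 499, 503, 509, 521, 523, 541, 547, 557, 563, 569,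 571, 577, 587, 593, 599, 601, 607, 613, 617, 619, 631, 641, 643, 647, 653, 659, 661, 673, 677, 683, 691, 701, 709, 719, 727, 733, 739, 743, 751, 757, 761, 769, 773, 787, 797, 809, 811, 821, 823, 827, 829, 839, 853, 857, 859, 863, 877, 881, 883, 887, 907, 911, 919, 929, 937, 941, 947, 953, 967, 971, 977, 983, 991, 997]

lemma Lp_check : ∀ p < 1003, p < 3 ∨ ((List.range 32).any fun d => 2 ≤ d && p % d == 0 && d != p) = true ∨
    p ∈ Lp := by
  decide +kernel

lemma Lp_mem {p : ℕ} (hp : p.Prime) (h3 : 3 ≤ p) (hlt : p < 1003) : p ∈ Lp := by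
  rcases Lp_check p hlt with h | h | h
  · omega
  · exfalso
    rw [List.any_eq_true] at h
    obtain ⟨d, _, hd⟩ := h
    simp only [Bool.and_eq_true, decide_eq_true_eq, beq_iff_eq, bne_iff_ne, ne_eq] at hd
    obtain ⟨⟨h1, h2⟩, h4⟩ := hd
    rcases (Nat.dvd_prime hp).1 (Nat.dvd_of_mod_eq_zero h2) with h5 | h5
    · omega
    · exact h4 h5
  · exact h

lemma sum_toFinset_le (f : ℕ → ℕ) (l : List ℕ) : ∑ x ∈ l.toFinset, f x ≤ (l.map f).sum := by
  induction l with
  | nil => simp
  | cons a l ih =>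
    rw [List.toFinset_cons, List.map_cons, List.sum_cons]
    by_cases h : a ∈ l.toFinset
    · rw [Finset.insert_eq_of_mem h]; omega
    · rw [Finset.sum_insert h]; omega

/-- the union bound -/
def SS (N : ℕ) : ℕ := (Lp.map (fun p => if p * p < 2 * N * N then (N - 2) / (p * p) + 1 else 0)).sum

/-- blocks of values of `N` -/
def Bk : List (ℕ × ℕ) := [(86, 90), (90, 93), (93, 97), (97, 100), (100, 102), (102, 106), (106, 110), (110, 116), (116, 123), (123, 127), (127, 128), (128, 136), (136, 141), (141, 149), (149, 158), (158, 169), (169, 178), (178, 191), (191, 201), (201, 218), (218, 244), (244, 271), (271, 299), (299, 331), (331, 369), (369, 420), (420, 479), (479, 551), (551, 642), (642, 710)]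

lemma Bk_check : ∀ b ∈ Bk, 2 * SS (b.2 - 1) < b.1 - 1 ∧ b.2 ≤ 710 := by decide +kernel

lemma Bk_cover : ∀ N < 710, N < 86 ∨ ∃ b ∈ Bk, b.1 ≤ N ∧ N < b.2 := by decide +kernel

lemma sum_le_SS {N M : ℕ} (hNM : N ≤ M) (hM : M < 710) :
    ∑ p ∈ PP N, ((N - 2) / (p * p) + 1) ≤ SS M := by
  have h0 : ∑ p ∈ PP N, ((N - 2) / (p * p) + 1) ≤
      ∑ p ∈ Lp.toFinset, (if p * p < 2 * M * M then (M - 2) / (p * p) + 1 else 0) := by
    rw [← Finset.sum_filter]
    have hsub : PP N ⊆ Lp.toFinset.filter (fun p => p * p < 2 * M * M) := by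
      intro p hp
      obtain ⟨_, hpr, h3, hlt⟩ := Finset.mem_filter.1 hp
      have h5 : 2 * N * N ≤ 2 * M * M := by gcongr
      refine Finset.mem_filter.2 ⟨?_, lt_of_lt_of_le hlt h5⟩
      rw [List.mem_toFinset]
      apply Lp_mem hpr h3
      by_contra h
      push Not at h
      have h6 := Nat.mul_le_mul h h
      have h7 : 2 * N * N ≤ 2 * 709 * 709 := by
        have : N ≤ 709 := by omega
        gcongr
      omega
    refine (Finset.sum_le_sum_of_subset hsub).trans ?_
    apply Finset.sum_le_sum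
    intro p _
    have : (N - 2) / (p * p) ≤ (M - 2) / (p * p) := Nat.div_le_div_right (by omega)
    omega
  exact h0.trans (sum_toFinset_le _ _)

lemma half_mid {N : ℕ} (h1 : 86 ≤ N) (h2 : N < 710) :
    2 * ((Finset.Icc 1 (N - 1)).filter (fun k => ¬ Squarefree (2 * k * N + 1))).card < N - 1 := by
  rcases Bk_cover N h2 with h | ⟨b, hb, h3, h4⟩
  · omega
  · obtain ⟨h5, h6⟩ := Bk_check b hb
    have h7 := bad_le N (by omega)
    have h8 := sum_le_SS (N := N) (M := b.2 - 1) (by omega) (by omega)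
    omega

/-- check of squarefreeness below 14641 -/
def sqb (x : ℕ) : Bool :=
  ([2, 3, 5, 7, 11, 13, 17, 19, 23, 29, 31, 37, 41, 43, 47, 53, 59, 61, 67, 71, 73, 79, 83, 89, 97, 101, 103, 107, 109, 113] : List ℕ).all (fun d => x % (d * d) != 0)

lemma primes_small : ∀ p < 121, p ∈ ([2, 3, 5, 7, 11, 13, 17, 19, 23, 29, 31, 37, 41, 43, 47, 53, 59, 61, 67, 71, 73, 79, 83, 89, 97, 101, 103, 107, 109, 113] : List ℕ) ∨
    p < 2 ∨ ((List.range 11).any fun d => 2 ≤ d && p % d == 0 && d != p) = true := by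
  decide +kernel

lemma sqb_spec {x : ℕ} (hx : x < 14641) (h : sqb x = true) : Squarefree x := by
  rw [Nat.squarefree_iff_prime_squarefree]
  intro p hp hd
  rcases Nat.eq_zero_or_pos x with h0 | h0
  · subst h0; revert h; decide
  have hle := Nat.le_of_dvd h0 hd
  have hp' : p < 121 := by
    by_contra hc
    push Not at hc
    have := Nat.mul_le_mul hc hc
    omega
  unfold sqb at h
  rw [List.all_eq_true] at h
  rcases primes_small p hp' with h3 | h3 | h3
  · have h2 := h p h3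
    rw [bne_iff_ne] at h2
    exact h2 (Nat.mod_eq_zero_of_dvd hd)
  · have := hp.two_le; omega
  · rw [List.any_eq_true] at h3
    obtain ⟨d, _, hd'⟩ := h3
    simp only [Bool.and_eq_true, decide_eq_true_eq, beq_iff_eq, bne_iff_ne, ne_eq] at hd'
    obtain ⟨⟨h5, h6⟩, h7⟩ := hd'
    rcases (Nat.dvd_prime hp).1 (Nat.dvd_of_mod_eq_zero h6) with h8 | h8
    · omega
    · exact h7 h8

lemma small_check : ∀ N < 86, 6 ≤ N →
    2 * ((Finset.Icc 1 (N - 1)).filter (fun k => ¬ (sqb (2 * k * N + 1) = true))).card < N - 1 := by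
  decide +kernel

lemma half_small {N : ℕ} (h1 : 6 ≤ N) (h2 : N < 86) :
    2 * ((Finset.Icc 1 (N - 1)).filter (fun k => ¬ Squarefree (2 * k * N + 1))).card < N - 1 := by
  refine lt_of_le_of_lt ?_ (small_check N h2 h1)
  apply Nat.mul_le_mul_left
  apply Finset.card_le_card
  intro k hk
  obtain ⟨h3, h4⟩ := Finset.mem_filter.1 hk
  refine Finset.mem_filter.2 ⟨h3, fun h5 => h4 (sqb_spec ?_ h5)⟩
  rw [Finset.mem_Icc] at h3
  have h6 : 2 * k * N ≤ 2 * 84 * 85 := by
    have ha : k ≤ 84 := by omega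
    have hb : N ≤ 85 := by omega
    gcongr
  omega

end Pool.Agent.H47.CP
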