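import Mathlib
import Pool.Agent.H47.CP.Cnt
import Pool.Agent.H47.CP.Half

/-!
The bound for large `N`.
-/

namespace Pool.Agent.H47.CP

open Finset

lemma tail_sum (M : ℕ) :
    ∑ i ∈ range M, (1 : ℝ) / (2 * (i : ℝ) + 17) ^ 2 ≤
      (1 : ℝ) / 32 - 1 / (2 * (2 * (M : ℝ) + 16)) := by
  induction M with
  | zero => norm_num
  | succ M ih =>
    rw [sum_range_succ]
    have hM : (0 : ℝ) ≤ M := Nat.cast_nonneg M
    have key : (1 : ℝ) / (2 * (M : ℝ) + 17) ^ 2 ≤
        1 / (2 * (2 * (M : ℝ) + 16)) - 1 / (2 * (2 * ((M : ℝ) + 1) + 16)) := by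
      rw [div_sub_div _ _ (by positivity) (by positivity),
        div_le_div_iff₀ (by positivity) (by positivity)]
      nlinarith
    push_cast
    linarith

lemma cop_of {p : ℕ} (hp : p.Prime) (h : 17 ≤ p) : Nat.Coprime 30030 p := by
  rw [Nat.coprime_comm, hp.coprime_iff_not_dvd]
  intro hd
  have h1 : p ∣ 2 * 3 * 5 * 7 * 11 * 13 := by norm_num; exact hd
  simp only [hp.dvd_mul] at h1
  rcases h1 with ((((h1 | h1) | h1) | h1) | h1) | h1 <;>
    (have := Nat.le_of_dvd (by norm_num) h1; omega)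

/-- the other integers -/
def QQ (N : ℕ) : Finset ℕ :=
  (Finset.Ico 17 (Nat.sqrt (2 * N * N) + 1)).filter (fun j => Nat.Coprime 30030 j)

lemma PP_sub (N : ℕ) : PP N ⊆ ({3, 5, 7, 11, 13} : Finset ℕ) ∪ QQ N := by
  intro p hp
  obtain ⟨_, hpr, h3, hlt⟩ := Finset.mem_filter.1 hp
  rcases Nat.lt_or_ge p 17 with h | h
  · apply Finset.mem_union_left
    interval_cases p <;> first | (simp; done) | (exfalso; revert hpr; norm_num)
  · apply Finset.mem_union_right
    refine Finset.mem_filter.2 ⟨Finset.mem_Ico.2 ⟨h, ?_⟩, cop_of hpr h⟩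
    exact Nat.lt_succ_of_le (Nat.le_sqrt.2 hlt.le)

lemma QQ_odd {N j : ℕ} (h : j ∈ QQ N) : ∃ i < Nat.sqrt (2 * N * N), j = 2 * i + 17 := by
  obtain ⟨h1, h2⟩ := Finset.mem_filter.1 h
  rw [Finset.mem_Ico] at h1
  have hodd : j % 2 = 1 := by
    by_contra hc
    have h3 : 2 ∣ j := by omega
    have h4 : 2 ∣ Nat.gcd 30030 j := Nat.dvd_gcd (by norm_num) h3
    rw [Nat.Coprime] at h2
    rw [h2] at h4
    omega
  exact ⟨(j - 17) / 2, by omega, by omega⟩

lemma QQ_sum (N : ℕ) : ∑ j ∈ QQ N, (1 : ℝ) / (j : ℝ) ^ 2 ≤ 1 / 32 := by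
  have hsub : QQ N ⊆ (range (Nat.sqrt (2 * N * N))).image (fun i : ℕ => (2 * i + 17 : ℕ)) := by
    intro j hj
    obtain ⟨i, hi, rfl⟩ := QQ_odd hj
    exact Finset.mem_image.2 ⟨i, Finset.mem_range.2 hi, rfl⟩
  calc ∑ j ∈ QQ N, (1 : ℝ) / (j : ℝ) ^ 2
      ≤ ∑ j ∈ (range (Nat.sqrt (2 * N * N))).image (fun i : ℕ => (2 * i + 17 : ℕ)),
          (1 : ℝ) / ((j : ℕ) : ℝ) ^ 2 :=
        Finset.sum_le_sum_of_subset_of_nonneg hsub (fun _ _ _ => by positivity)
    _ = ∑ i ∈ range (Nat.sqrt (2 * N * N)), (1 : ℝ) / (2 * (i : ℝ) + 17) ^ 2 := by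
        rw [Finset.sum_image]
        · apply Finset.sum_congr rfl
          intro i _
          push_cast
          rfl
        · intro a _ b _ h
          simp only at h
          omega
    _ ≤ 1 / 32 - 1 / (2 * (2 * (Nat.sqrt (2 * N * N) : ℕ) + 16)) := tail_sum _
    _ ≤ 1 / 32 := by
        have : (0 : ℝ) ≤ 1 / (2 * (2 * ((Nat.sqrt (2 * N * N) : ℕ) : ℝ) + 16)) := by positivity
        linarith

lemma QQ_card {N : ℕ} (hN : 1 ≤ N) :
    1001 * ((QQ N).card + 1) ≤ 192 * (Nat.sqrt (2 * N * N) + 1) + 3600 := by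
  have h1 : insert 1 (QQ N) ⊆
      (range (Nat.sqrt (2 * N * N) + 1)).filter (fun j => Nat.Coprime 30030 j) := by
    intro j hj
    rcases Finset.mem_insert.1 hj with rfl | hj
    · refine Finset.mem_filter.2 ⟨Finset.mem_range.2 ?_, by simp⟩
      have : 1 ≤ Nat.sqrt (2 * N * N) := Nat.le_sqrt.2 (by nlinarith)
      omega
    · obtain ⟨h2, h3⟩ := Finset.mem_filter.1 hj
      rw [Finset.mem_Ico] at h2
      exact Finset.mem_filter.2 ⟨Finset.mem_range.2 h2.2, h3⟩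
  have h2 := Finset.card_le_card h1
  rw [Finset.card_insert_of_notMem] at h2
  · have h3 := count_bound (Nat.sqrt (2 * N * N) + 1)
    rw [Nat.count_eq_card_filter_range] at h3
    omega
  · intro hc
    have := (Finset.mem_Ico.1 (Finset.mem_filter.1 hc).1).1
    omega

lemma sqrt_bd {X N : ℝ} (hN : 0 < N) (h : X * X ≤ 2 * N * N) : X ≤ 141422 / 100000 * N := by
  by_contra hcon
  push Not at hcon
  have h1 : (141422 / 100000 * N) * (141422 / 100000 * N) < X * X :=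
    mul_self_lt_mul_self (by positivity) hcon
  have h2 : 0 < N * N := by positivity
  nlinarith

lemma final_ineq {B c N X t : ℝ} (hN : 2 ≤ N)
    (hB : B ≤ N * (1 / 9 + 1 / 25 + 1 / 49 + 1 / 121 + 1 / 169) + 5 + (t + c))
    (ht : t ≤ N * (1 / 32)) (hc : 1001 * (c + 1) ≤ 192 * (X + 1) + 3600)
    (hX : X ≤ 141422 / 100000 * N) : B ≤ 48822 / 100000 * N + 779 / 100 := by
  linarith

/-- the number of bad `k < N` is at most `0.48822 N + 7.79` -/
lemma bad_real {N : ℕ} (h : 2 ≤ N) :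
    (((Finset.Icc 1 (N - 1)).filter (fun k => ¬ Squarefree (2 * k * N + 1))).card : ℝ) ≤
      48822 / 100000 * N + 779 / 100 := by
  have hb := bad_le N (by omega)
  have hc := QQ_card (N := N) (by omega)
  have hs := QQ_sum N
  have hX2 : Nat.sqrt (2 * N * N) * Nat.sqrt (2 * N * N) ≤ 2 * N * N := Nat.sqrt_le (2 * N * N)
  set X := Nat.sqrt (2 * N * N) with hX
  set B := ((Finset.Icc 1 (N - 1)).filter (fun k => ¬ Squarefree (2 * k * N + 1))).card with hB
  have hNR : (2 : ℝ) ≤ N := by exact_mod_cast h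
  have hXR : (X : ℝ) * X ≤ 2 * N * N := by exact_mod_cast hX2
  have hXb : (X : ℝ) ≤ 141422 / 100000 * N := sqrt_bd (by linarith) hXR
  have hcR : 1001 * (((QQ N).card : ℝ) + 1) ≤ 192 * ((X : ℝ) + 1) + 3600 := by exact_mod_cast hc
  have hdis : Disjoint ({3, 5, 7, 11, 13} : Finset ℕ) (QQ N) := by
    rw [Finset.disjoint_left]
    intro j hj hj'
    have h1 := (Finset.mem_Ico.1 (Finset.mem_filter.1 hj').1).1
    simp only [Finset.mem_insert, Finset.mem_singleton] at hj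
    omega
  have h1 : ∑ p ∈ PP N, ((N - 2) / (p * p) + 1) ≤
      ∑ p ∈ ({3, 5, 7, 11, 13} : Finset ℕ) ∪ QQ N, ((N - 2) / (p * p) + 1) :=
    Finset.sum_le_sum_of_subset (PP_sub N)
  have h2 : (B : ℝ) ≤ ∑ p ∈ ({3, 5, 7, 11, 13} : Finset ℕ) ∪ QQ N, ((N : ℝ) * (1 / (p : ℝ) ^ 2) + 1) := by
    have h3 : (B : ℝ) ≤
        ((∑ p ∈ ({3, 5, 7, 11, 13} : Finset ℕ) ∪ QQ N, ((N - 2) / (p * p) + 1) : ℕ) : ℝ) := by
      exact_mod_cast hb.trans h1
    refine h3.trans ?_
    rw [Nat.cast_sum]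
    apply Finset.sum_le_sum
    intro p _
    push_cast
    have h4 : (((N - 2) / (p * p) : ℕ) : ℝ) ≤ ((N - 2 : ℕ) : ℝ) / ((p * p : ℕ) : ℝ) := Nat.cast_div_le
    have h5 : ((N - 2 : ℕ) : ℝ) ≤ N := by exact_mod_cast Nat.sub_le N 2
    have h6 : ((N - 2 : ℕ) : ℝ) / ((p * p : ℕ) : ℝ) ≤ (N : ℝ) * (1 / (p : ℝ) ^ 2) := by
      push_cast
      rw [mul_one_div, ← pow_two]
      gcongr
    linarith
  rw [Finset.sum_union hdis, Finset.sum_add_distrib (s := QQ N), ← Finset.mul_sum, Finset.sum_const,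
    nsmul_eq_mul, mul_one] at h2
  have h7 : ∑ p ∈ ({3, 5, 7, 11, 13} : Finset ℕ), ((N : ℝ) * (1 / (p : ℝ) ^ 2) + 1) =
      (N : ℝ) * ((1 : ℝ) / 9 + 1 / 25 + 1 / 49 + 1 / 121 + 1 / 169) + 5 := by
    rw [Finset.sum_insert (by decide), Finset.sum_insert (by decide), Finset.sum_insert (by decide),
      Finset.sum_insert (by decide), Finset.sum_singleton]
    push_cast
    ring
  rw [h7] at h2
  have h8 : (N : ℝ) * ∑ p ∈ QQ N, (1 : ℝ) / (p : ℝ) ^ 2 ≤ N * (1 / 32) := by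
    gcongr
  exact final_ineq hNR h2 h8 hcR hXb

lemma half_big {N : ℕ} (h : 710 ≤ N) :
    2 * ((Finset.Icc 1 (N - 1)).filter (fun k => ¬ Squarefree (2 * k * N + 1))).card < N - 1 := by
  have h1 := bad_real (N := N) (by omega)
  have hNR : (710 : ℝ) ≤ N := by exact_mod_cast h
  have h10 : (2 : ℝ) * (((Finset.Icc 1 (N - 1)).filter
      (fun k => ¬ Squarefree (2 * k * N + 1))).card : ℝ) + 1 < N := by linarith
  have h11 : 2 * ((Finset.Icc 1 (N - 1)).filter
      (fun k => ¬ Squarefree (2 * k * N + 1))).card + 1 < N := by exact_mod_cast h10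
  omega

/-- more than half of the `k < N` are good -/
theorem half {N : ℕ} (h : 6 ≤ N) :
    N - 1 < 2 * ((Finset.Icc 1 (N - 1)).filter (fun k => Squarefree (2 * k * N + 1))).card := by
  have h1 : 2 * ((Finset.Icc 1 (N - 1)).filter (fun k => ¬ Squarefree (2 * k * N + 1))).card < N - 1 := by
    rcases Nat.lt_or_ge N 86 with h2 | h2
    · exact half_small h h2
    · rcases Nat.lt_or_ge N 710 with h3 | h3
      · exact half_mid h2 h3
      · exact half_big h3
  have h2 := Finset.card_filter_add_card_filter_not (s := Finset.Icc 1 (N - 1))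
    (p := fun k => Squarefree (2 * k * N + 1))
  rw [Nat.card_Icc] at h2
  omega

end Pool.Agent.H47.CP
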