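import Mathlib

/-!
The circular order 1, 3, 5, …, 6, 4, 2 of {1, …, n}: none of the numbers 2ab+1 of neighbours is
divisible by a prime p ≡ 3 mod 8.
-/

namespace Pool.Agent.H47.CP

/-- the entry at place `i` (counted from 0) of the order `1, 3, 5, …, 6, 4, 2` -/
def ent (n i : ℕ) : ℕ := if 2 * i + 1 ≤ n then 2 * i + 1 else 2 * (n - i)

lemma ent_pos {n i : ℕ} (h : i < n) : 1 ≤ ent n i := by
  unfold ent; split_ifs <;> omega

lemma ent_le {n i : ℕ} (h : i < n) : ent n i ≤ n := by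
  unfold ent; split_ifs <;> omega

lemma ent_inj {n i j : ℕ} (hi : i < n) (hj : j < n) (h : ent n i = ent n j) : i = j := by
  unfold ent at h; split_ifs at h <;> omega

/-- the permutation, with values shifted by one -/
noncomputable def perm (n : ℕ) : Equiv.Perm (Fin n) :=
  Equiv.ofBijective (fun i => ⟨ent n i.1 - 1, by
    have := ent_pos i.2; have := ent_le i.2; omega⟩) <| by
    rw [← Finite.injective_iff_bijective]
    intro i j h
    have h' : ent n i.1 - 1 = ent n j.1 - 1 := by simpa using h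
    have h1 := ent_pos i.2
    have h2 := ent_pos j.2
    exact Fin.ext (ent_inj i.2 j.2 (by omega))

lemma perm_val (n : ℕ) (i : Fin n) : (perm n i).1 + 1 = ent n i.1 := by
  have h1 := ent_pos i.2
  show ent n i.1 - 1 + 1 = _
  omega

/-- neighbours: difference 2, or `n - 1, n`, or `2, 1` -/
lemma nb {n i j : ℕ} (hn : 2 ≤ n) (hi : i < n) (hj : j = (i + 1) % n) :
    (ent n j = ent n i + 2 ∨ ent n i = ent n j + 2) ∨
      (ent n i + 1 = ent n j ∨ ent n j + 1 = ent n i) := by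
  rcases Nat.lt_or_ge (i + 1) n with h | h
  · rw [Nat.mod_eq_of_lt h] at hj
    subst hj
    unfold ent; split_ifs <;> omega
  · have : i + 1 = n := by omega
    rw [this, Nat.mod_self] at hj
    subst hj
    unfold ent; split_ifs <;> omega

lemma two_sq {p : ℕ} [Fact p.Prime] (hp : p % 8 = 3) (m : ℤ) :
    ¬ ((p : ℤ) ∣ 2 * (m + 1) ^ 2 - 1) := by
  intro h
  have h2 : p ≠ 2 := by rintro rfl; omega
  have hsq : IsSquare (2 : ZMod p) := by
    refine ⟨2 * ((m : ZMod p) + 1), ?_⟩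
    have h0 : ((2 * (m + 1) ^ 2 - 1 : ℤ) : ZMod p) = 0 := (ZMod.intCast_zmod_eq_zero_iff_dvd _ _).2 h
    push_cast at h0
    linear_combination (-2) * h0
  rw [ZMod.exists_sq_eq_two_iff h2] at hsq
  omega

lemma neg_one_sq {p : ℕ} [Fact p.Prime] (hp : p % 8 = 3) (a : ℤ) :
    ¬ ((p : ℤ) ∣ 2 * a * (a + 1) + 1) := by
  intro h
  have hsq : ¬ IsSquare (-1 : ZMod p) := by
    rw [ZMod.exists_sq_eq_neg_one_iff]; omega
  have h0 : ((2 * a * (a + 1) + 1 : ℤ) : ZMod p) = 0 := (ZMod.intCast_zmod_eq_zero_iff_dvd _ _).2 h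
  push_cast at h0
  have h1 : (a : ZMod p) ^ 2 + ((a : ZMod p) + 1) ^ 2 = 0 := by linear_combination h0
  have ha : (a : ZMod p) + 1 ≠ 0 := by
    intro h3
    rw [h3] at h1
    have h4 : (a : ZMod p) = -1 := by linear_combination h3
    rw [h4] at h1
    simp at h1
  apply hsq
  refine ⟨(a : ZMod p) / ((a : ZMod p) + 1), ?_⟩
  field_simp
  linear_combination -h1

theorem expl {n : ℕ} (hn : 2 ≤ n) (i : Fin n) {p : ℕ} (hp : p.Prime) (h8 : p % 8 = 3) :
    ¬ p ∣ 2 * ((perm n i).1 + 1) * ((perm n (finRotate n i)).1 + 1) + 1 := by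
  haveI := Fact.mk hp
  rw [perm_val, perm_val]
  have hj : (finRotate n i).1 = (i.1 + 1) % n := by
    obtain ⟨m, rfl⟩ : ∃ m, n = m + 1 := ⟨n - 1, by omega⟩
    rw [finRotate_apply, Fin.val_add, Fin.val_one']
    simp
  intro hd
  generalize hA : ent n i.1 = A at *
  generalize hB : ent n (finRotate n i).1 = B at *
  have key := nb hn i.2 hj
  rw [hA, hB] at key
  have hdz : (p : ℤ) ∣ 2 * (A : ℤ) * B + 1 := by exact_mod_cast hd
  rcases key with (h | h) | (h | h)
  · apply two_sq h8 (A : ℤ)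
    have : 2 * (A : ℤ) * B + 1 = 2 * ((A : ℤ) + 1) ^ 2 - 1 := by rw [h]; push_cast; ring
    rwa [this] at hdz
  · apply two_sq h8 (B : ℤ)
    have : 2 * (A : ℤ) * B + 1 = 2 * ((B : ℤ) + 1) ^ 2 - 1 := by rw [h]; push_cast; ring
    rwa [this] at hdz
  · apply neg_one_sq h8 (A : ℤ)
    have : 2 * (A : ℤ) * B + 1 = 2 * (A : ℤ) * (A + 1) + 1 := by rw [← h]; push_cast; ring
    rwa [this] at hdz
  · apply neg_one_sq h8 (B : ℤ)
    have : 2 * (A : ℤ) * B + 1 = 2 * (B : ℤ) * (B + 1) + 1 := by rw [← h]; push_cast; ring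
    rwa [this] at hdz

/-- For `n ≥ 2` there is a circular permutation for which no number is divisible by a prime
`p ≡ 3 mod 8`. -/
theorem expl_exists (n : ℕ) (hn : 2 ≤ n) : ∃ π : Equiv.Perm (Fin n), ∀ i : Fin n,
    ∀ p : ℕ, p.Prime → p % 8 = 3 →
      ¬ p ∣ 2 * ((π i).1 + 1) * ((π (finRotate n i)).1 + 1) + 1 :=
  ⟨perm n, fun i _ hp h8 => expl hn i hp h8⟩

end Pool.Agent.H47.CP
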