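import Mathlib
import Pool.Agent.H47.CP.Ins
import Pool.Agent.H47.CP.Big

/-!
A circular permutation of `1, …, n` with all the numbers `2ab+1` squarefree exists iff `n ≠ 4`.
-/

namespace Pool.Agent.H47.CP

/-- the relation -/
def SF (a b : ℕ) : Prop := Squarefree (2 * a * b + 1)

lemma SF.symm {a b : ℕ} (h : SF a b) : SF b a := by
  unfold SF at *
  rwa [show 2 * b * a = 2 * a * b by ring]

lemma cyc_five : Cyc SF 5 (fun i => [1, 3, 2, 4, 5].getD (i % 5) 0) := by
  have key : ∀ r < 5, SF ([1, 3, 2, 4, 5].getD r 0) ([1, 3, 2, 4, 5].getD ((r + 1) % 5) 0) := by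
    intro r hr
    interval_cases r
    · show Squarefree 7; exact Nat.prime_seven.squarefree
    · show Squarefree 13; exact (by norm_num : Nat.Prime 13).squarefree
    · show Squarefree 17; exact (by norm_num : Nat.Prime 17).squarefree
    · show Squarefree 41; exact (by norm_num : Nat.Prime 41).squarefree
    · show Squarefree 11; exact (by norm_num : Nat.Prime 11).squarefree
  refine ⟨?_, ?_, ?_, ?_, ?_⟩
  · intro i; simp
  · intro i
    have h := Nat.mod_lt i (by norm_num : 0 < 5)
    have : ∀ r < 5, 1 ≤ [1, 3, 2, 4, 5].getD r 0 := by decide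
    exact this _ h
  · intro i
    have h := Nat.mod_lt i (by norm_num : 0 < 5)
    have : ∀ r < 5, [1, 3, 2, 4, 5].getD r 0 ≤ 5 := by decide
    exact this _ h
  · intro i j hi hj he
    rw [Nat.mod_eq_of_lt hi, Nat.mod_eq_of_lt hj] at he
    have : ∀ r < 5, ∀ s < 5, [1, 3, 2, 4, 5].getD r 0 = [1, 3, 2, 4, 5].getD s 0 → r = s := by decide
    exact this _ hi _ hj he
  · intro i
    have h := Nat.mod_lt i (by norm_num : 0 < 5)
    have h2 := key _ h
    rwa [Nat.mod_add_mod] at h2

lemma exists_cyc {n : ℕ} (h : 5 ≤ n) : ∃ f, Cyc SF n f := by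
  induction n, h using Nat.le_induction with
  | base => exact ⟨_, cyc_five⟩
  | succ n hn ih =>
    obtain ⟨f, hf⟩ := ih
    have h1 := half (N := n + 1) (by omega)
    rw [show n + 1 - 1 = n by omega] at h1
    obtain ⟨c, hc, hc'⟩ := hf.exists_nb (by omega) _
      (fun x hx => Finset.mem_Icc.1 (Finset.mem_filter.1 hx).1) h1
    exact ⟨_, hf.insert (by omega) c (Finset.mem_filter.1 hc).2
      (SF.symm (Finset.mem_filter.1 hc').2)⟩

/-- A circular permutation of `{1, …, n}` such that all the numbers `2ab+1` for neighbours `a, b`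
are squarefree exists if and only if `n ≠ 4`. -/
theorem squarefree_iff (n : ℕ) (hn : 1 ≤ n) :
    (∃ π : Equiv.Perm (Fin n), ∀ i : Fin n,
      Squarefree (2 * ((π i).1 + 1) * ((π (finRotate n i)).1 + 1) + 1)) ↔ n ≠ 4 := by
  constructor
  · rintro ⟨π, hπ⟩ rfl
    have h9 : ¬ Squarefree 9 := by
      intro h
      have := h 3 ⟨1, rfl⟩
      rw [Nat.isUnit_iff] at this
      omega
    have h25 : ¬ Squarefree 25 := by
      intro h
      have := h 5 ⟨1, rfl⟩
      rw [Nat.isUnit_iff] at this
      omega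
    revert hπ
    have key : ∀ π : Equiv.Perm (Fin 4), ∃ i : Fin 4,
        2 * ((π i).1 + 1) * ((π (finRotate 4 i)).1 + 1) + 1 = 9 ∨
        2 * ((π i).1 + 1) * ((π (finRotate 4 i)).1 + 1) + 1 = 25 := by decide
    intro hπ
    obtain ⟨i, hi | hi⟩ := key π
    · exact h9 (hi ▸ hπ i)
    · exact h25 (hi ▸ hπ i)
  · intro h4
    rcases Nat.lt_or_ge n 5 with h5 | h5
    · have h3 : n = 1 ∨ n = 2 ∨ n = 3 := by omega
      rcases h3 with rfl | rfl | rfl
      · refine ⟨1, fun i => ?_⟩
        fin_cases i
        show Squarefree 3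
        exact Nat.prime_three.squarefree
      · refine ⟨1, fun i => ?_⟩
        fin_cases i
        · show Squarefree 5; exact Nat.prime_five.squarefree
        · show Squarefree 5; exact Nat.prime_five.squarefree
      · refine ⟨1, fun i => ?_⟩
        fin_cases i
        · show Squarefree 5; exact Nat.prime_five.squarefree
        · show Squarefree 13; exact (by norm_num : Nat.Prime 13).squarefree
        · show Squarefree 7; exact Nat.prime_seven.squarefree
    · obtain ⟨f, hf⟩ := exists_cyc h5
      obtain ⟨π, hπ⟩ := hf.perm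
      refine ⟨π, fun i => ?_⟩
      rw [(hπ i).1, (hπ i).2]
      exact hf.rel i.1

end Pool.Agent.H47.CP
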